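import Pool.Agent.TH569.Peg.D

/-! Inscribed squares in Jordan curves in a disk whose arcs avoid certain lenses, in particular in
star-shaped curves that are far from the centre in a few directions; no regularity. -/

namespace Pool.Agent.Results.MP_5a3ebe_gt.DiskLenses

/-- `C` contains the four vertices of a square. -/
def HasSquare (C : Set ℂ) : Prop :=
  ∃ z w : ℂ, w ≠ 0 ∧ z ∈ C ∧ z + w ∈ C ∧ z + w + Complex.I * w ∈ C ∧ z + Complex.I * w ∈ C

/-- The intersection of two open disks: centre `e A` and radius `R`, centre `e A / 2` and radius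
`R / √2`. Below `e = 1 - i` or `e = 1 + i`; then `|e A| = √2 |A|`. If `|A| = R`, the part of this
set in the disk `|z| ≤ R` is the lens between the circle `|z| = R` and the circle of radius `R`
around `e A`; its corners are `A` and the point obtained from `A` by a quarter turn (clockwise for
`e = 1 - i`, counterclockwise for `e = 1 + i`). -/
def Lens (R : ℝ) (e A : ℂ) : Set ℂ :=
  Metric.ball (e * A) R ∩ Metric.ball (e * A / 2) (R / √2)

/-- **Lenses.** Let `C` be a Jordan curve in the disk `|z| ≤ R`, parametrised by `c : ℝ → ℂ` of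
period `1`. Let `X j = c (x j)` and `Y j = c (y j)`, `j = 0, …, n`, be points moving once around `C`
(`x`, `y` nondecreasing, `x n = x 0 + 1`, `y n = y 0 + 1`) with `x (j + 1) < y j < x j + 1`. If the arc
`X j, X (j + 1)` avoids the lens of `Y j` for `1 - i`, and the arc `Y j, Y (j + 1)` avoids the lens of
`X (j + 1)` for `1 + i`, then `C` contains the vertices of a square. For instance, this holds if
`A 0, …, A (n - 1)`, `n ≥ 3`, are points in this cyclic order on `C` such that every arc
`A j, A (j + 1)` avoids the lens of `A (j - 1)` for `1 - i` and the lens of `A (j + 2)` for `1 + i`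
(take `x j`, `y j` to be the parameters of `A (j + 1)` and `A j`, the latter raised by one).

**Star-shaped curves.** Let `C` be the curve `r(φ) exp(i φ)` with `r` continuous, positive and of
period `2 π`, and let `R` be an upper bound of `r`. Let `δ` be an angle with `45° ≤ δ ≤ 90°` and
let `θ 0 < θ 1 < ⋯ < θ n = θ 0 + 360°`, continued by `θ (j + n) = θ j + 360°`, be directions
with `r ≥ R / (√2 sin δ)` in these directions, with `θ (j + 1) - θ j ≥ δ - 45°` and
`θ (j + 2) - θ j ≤ 315° - δ`. Then `C` contains the vertices of a square. For `δ = 90°` it suffices that `r ≥ R / √2` in four directions at right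
angles, for `δ = 75°` that `r ≥ (√3 - 1) R` in three directions at 120°, for `δ = 45°` that
`C` touches the circle `|z| = R` in directions such that the sum of any two consecutive gaps is at
most 270°. There is no lower bound for `r` in the other directions, and no regularity. -/
theorem result :
    (∀ (c : ℝ → ℂ), Continuous c → (∀ t, c (t + 1) = c t) → Set.InjOn c (Set.Ico 0 1) →
      ∀ R : ℝ, (∀ t, ‖c t‖ ≤ R) →
      ∀ (n : ℕ) (x y : ℕ → ℝ), (∀ j < n, x j ≤ x (j + 1)) → (∀ j < n, y j ≤ y (j + 1)) →
        x n = x 0 + 1 → y n = y 0 + 1 → (∀ j < n, x (j + 1) < y j ∧ y j < x j + 1) →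
        (∀ j < n, ∀ t ∈ Set.Icc (x j) (x (j + 1)), c t ∉ Lens R (1 - Complex.I) (c (y j))) →
        (∀ j < n, ∀ t ∈ Set.Icc (y j) (y (j + 1)),
          c t ∉ Lens R (1 + Complex.I) (c (x (j + 1)))) →
        HasSquare (Set.range c)) ∧
    (∀ r : ℝ → ℝ, Continuous r → (∀ φ, 0 < r φ) → (∀ φ, r (φ + 2 * Real.pi) = r φ) →
      ∀ R : ℝ, (∀ φ, r φ ≤ R) →
      ∀ (δ : ℝ), Real.pi / 4 ≤ δ → δ ≤ Real.pi / 2 →
      ∀ (n : ℕ) (θ : ℕ → ℝ), (∀ j, θ (j + n) = θ j + 2 * Real.pi) → (∀ j, θ j < θ (j + 1)) →
        (∀ j, δ - Real.pi / 4 ≤ θ (j + 1) - θ j) →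
        (∀ j, θ (j + 2) - θ j ≤ 7 * Real.pi / 4 - δ) →
        (∀ j, R ≤ √2 * Real.sin δ * r (θ j)) →
        HasSquare (Set.range fun φ : ℝ => (r φ : ℂ) * Complex.exp (φ * Complex.I))) := by
  constructor
  · intro c hc hper hinj R hR n x y hx hy hxn hyn h12 hE hD
    have L : H763R2.An.Loop c := ⟨hc, hper⟩
    have J := H765R3.Peg.inj_of L hinj
    have hR0 : 0 < R := by
      by_contra h
      push Not at h
      have z : ∀ t, c t = 0 := fun t => norm_le_zero_iff.1 ((hR t).trans h)
      exact J 0 (1 / 2) (by norm_num) (by norm_num) (by rw [z, z])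
    have s0 : (0:ℝ) < √2 := Real.sqrt_pos.2 (by norm_num)
    have conv : ∀ {z e A : ℂ}, z ∉ Lens R e A →
        R ≤ ‖z - e * A‖ ∨ R ≤ √2 * ‖z - e / 2 * A‖ := by
      intro z e A h
      simp only [Lens, Set.mem_inter_iff, Metric.mem_ball, dist_eq_norm, not_and_or, not_lt] at h
      rcases h with h | h
      · exact Or.inl h
      · right
        rw [div_le_iff₀ s0] at h
        rw [show e / 2 * A = e * A / 2 by ring]
        linarith
    by_contra hno
    exact TH569.Peg.lens L J hno hR0 hR n x y hx hy hxn hyn (fun j hj => (h12 j hj).1)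
      (fun j hj => (h12 j hj).2) (fun j hj t ht => conv (hE j hj t ht))
      (fun j hj t ht => conv (hD j hj t ht))
  · intro r hr r0 rp R hR δ hδ1 hδ2 n θ hθn hθ0 hθ1 hθ2 hrθ
    by_contra hno
    exact TH569.Peg.star hr r0 rp hR n θ δ hδ1 hδ2 hθn hθ0 hθ1 hθ2 hrθ hno

end Pool.Agent.Results.MP_5a3ebe_gt.DiskLenses
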