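import Pool.Agent.TH569.Peg.G

/-! Inscribed squares and the pockets of a Jordan curve (the arcs between two points of a support
line); no regularity. -/

namespace Pool.Agent.Results.MP_5a3ebe_gt.Pockets

/-- `C` contains the four vertices of a square. -/
def HasSquare (C : Set ℂ) : Prop :=
  ∃ z w : ℂ, w ≠ 0 ∧ z ∈ C ∧ z + w ∈ C ∧ z + w + Complex.I * w ∈ C ∧ z + Complex.I * w ∈ C

/-- `z` lies inside `C`: it is not on `C`, and its component of the complement of `C` is bounded. -/
def Inside (C : Set ℂ) (z : ℂ) : Prop :=
  z ∉ C ∧ Bornology.IsBounded (connectedComponentIn Cᶜ z)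

/-- The height of `z` when the direction `exp (i θ)` points upwards. -/
noncomputable def height (θ : ℝ) (z : ℂ) : ℝ := (z * Complex.exp (-θ * Complex.I)).re

/-- The coordinate of `z` to the left, that is in the direction `i exp (i θ)`, when `exp (i θ)` points
upwards. -/
noncomputable def left (θ : ℝ) (z : ℂ) : ℝ := (z * Complex.exp (-θ * Complex.I)).im

/-- `c t` is a highest point of the curve when `exp (i θ)` points upwards. -/
def Highest (c : ℝ → ℂ) (θ t : ℝ) : Prop := ∀ s, height θ (c s) ≤ height θ (c t)

/-- Let `C` be a Jordan curve parametrised by `c : ℝ → ℂ` of period `1`. If `s - 1 < a < t < b < s`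
and `A = c a`, `B = c b` are highest points in some direction, we say that `P = c t` is in a pocket
between `A` and `B`, seen from `S = c s` (that is, `P` is on the arc between `A` and `B` that does not
contain `S`).

* Let `ψ` be continuous with `θ < ψ θ ≤ θ + π`, `ψ (θ + 2 π) = ψ θ + 2 π`, and suppose that no
point of `C` is highest both in a direction `θ` and in the direction `ψ θ`. If `C` does not contain
the vertices of a square, there are a direction `θ`, a point `P` in a pocket between highest points of
one of the directions `θ`, `ψ θ`, itself not highest, and a highest point `S` of the other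
direction (from which the pocket is seen), such that a square with the side `P S` has both its other
vertices inside `C`, equally far from `C`. (It is the square `P, S, S + ε (P - S), P + ε (P - S)`
with `ε = i` if the pocket belongs to `θ` and `ε = -i` if it belongs to `ψ θ`.)
* (`ψ θ = θ + π`.) If for each direction and each pocket between two highest points `A`, `B`,
seen from a lowest point `S`, no point `P` of the pocket is deeper below the line `A B` than its
horizontal distance from `S`, then `C` contains the vertices of a square.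
* (`ψ θ = θ + π / 4`.) Suppose that no point of `C` is highest in two directions that form an angle of
45 degrees (the convex hull has no exterior angle of 45 degrees or more), and that each pocket
between two highest points `A`, `B` (seen from a highest point of a direction at 45 degrees)
projects orthogonally into the segment `A B`. Then `C` contains the vertices of a square. -/
theorem result (c : ℝ → ℂ) (hc : Continuous c) (hper : ∀ t, c (t + 1) = c t)
    (hinj : Set.InjOn c (Set.Ico 0 1)) :
    (∀ ψ : ℝ → ℝ, Continuous ψ → (∀ θ, ψ (θ + 2 * Real.pi) = ψ θ + 2 * Real.pi) →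
      (∀ θ, θ < ψ θ ∧ ψ θ ≤ θ + Real.pi) → (∀ θ t, Highest c θ t → ¬ Highest c (ψ θ) t) →
      ¬ HasSquare (Set.range c) →
      ∃ (θ a t b s : ℝ) (ε : ℂ), s - 1 < a ∧ a < t ∧ t < b ∧ b < s ∧
        ((ε = Complex.I ∧ Highest c θ a ∧ Highest c θ b ∧ ¬ Highest c θ t ∧
            Highest c (ψ θ) s) ∨
          (ε = -Complex.I ∧ Highest c (ψ θ) a ∧ Highest c (ψ θ) b ∧ ¬ Highest c (ψ θ) t ∧
            Highest c θ s)) ∧
        Inside (Set.range c) (c t + ε * (c t - c s)) ∧
        Inside (Set.range c) (c s + ε * (c t - c s)) ∧
        Metric.infDist (c t + ε * (c t - c s)) (Set.range c) =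
          Metric.infDist (c s + ε * (c t - c s)) (Set.range c)) ∧
    ((∀ θ a t b s : ℝ, s - 1 < a → a < t → t < b → b < s → Highest c θ a → Highest c θ b →
        Highest c (θ + Real.pi) s →
        height θ (c a) - height θ (c t) ≤ |left θ (c t) - left θ (c s)|) →
      HasSquare (Set.range c)) ∧
    ((∀ θ t, Highest c θ t → ¬ Highest c (θ + Real.pi / 4) t) →
      (∀ θ a t b s : ℝ, s - 1 < a → a < t → t < b → b < s → Highest c θ a → Highest c θ b →
        (Highest c (θ + Real.pi / 4) s ∨ Highest c (θ - Real.pi / 4) s) →
        min (left θ (c a)) (left θ (c b)) ≤ left θ (c t) ∧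
          left θ (c t) ≤ max (left θ (c a)) (left θ (c b))) →
      HasSquare (Set.range c)) := by
  have L : H763R2.An.Loop c := ⟨hc, hper⟩
  have J := H765R3.Peg.inj_of L hinj
  refine ⟨fun ψ hψ ψ1 ψ23 hsep hno => ?_, fun h => ?_, fun h1 h2 => ?_⟩
  · obtain ⟨θ, a, t, b, s, s1, s2, s3, s4, h⟩ := TH569.Peg.pockets L J hno hψ ψ1
      (fun θ => (ψ23 θ).1) (fun θ => (ψ23 θ).2) hsep
    rcases h with ⟨h1, h2, h3, h4, h5, h6⟩ | ⟨h1, h2, h3, h4, h5, h6⟩
    · refine ⟨θ, a, t, b, s, Complex.I, s1, s2, s3, s4, Or.inl ⟨rfl, h1, h2, h3, h4⟩,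
        TH569.Peg.ins_of_pos L h5, TH569.Peg.ins_of_pos L (by rw [← h6]; exact h5), ?_⟩
      rw [← H763R2.An.mgc_abs, ← H763R2.An.mgc_abs, h6]
    · refine ⟨θ, a, t, b, s, -Complex.I, s1, s2, s3, s4, Or.inr ⟨rfl, h1, h2, h3, h4⟩, ?_⟩
      rw [neg_mul, ← sub_eq_add_neg, ← sub_eq_add_neg]
      refine ⟨TH569.Peg.ins_of_pos L h5, TH569.Peg.ins_of_pos L (by rw [← h6]; exact h5), ?_⟩
      rw [← H763R2.An.mgc_abs, ← H763R2.An.mgc_abs, h6]
  · by_contra hno
    exact TH569.Peg.parallel L J h hno
  · by_contra hno
    exact TH569.Peg.orthogonal L J h1 h2 hno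

end Pool.Agent.Results.MP_5a3ebe_gt.Pockets
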