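import Pool.Agent.TH829.Peg.Sep

/-! Inscribed squares in Jordan curves: separating sets of chords, and squares from the absence of
one kind of isosceles right triangle at a single scale. -/

set_option autoImplicit false

namespace Pool.Agent.Results.MP_5a3ebe_gt.SingleScale

open Classical in
/-- The signed distance of `z` to the closed curve `c` (of period `1`): the distance of `z` to the
curve if the curve winds an odd number `n` of times around `z` (there is a continuous logarithm `k`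
of `c - z` with `k 1 - k 0 = 2 π n i`), and minus the distance otherwise. -/
noncomputable def sdist (c : ℝ → ℂ) (z : ℂ) : ℝ :=
  if ∃ n : ℤ, (∃ k : ℝ → ℂ, Continuous k ∧ (∀ t, Complex.exp (k t) = c t - z) ∧
      k 1 - k 0 = n * (2 * Real.pi * Complex.I)) ∧ Odd n
  then Metric.infDist z (Set.range c) else -Metric.infDist z (Set.range c)

/-- The curve `c` contains the four vertices of a square. -/
def HasSquare (c : ℝ → ℂ) : Prop :=
  ∃ z w : ℂ, w ≠ 0 ∧ z ∈ Set.range c ∧ z + w ∈ Set.range c ∧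
    z + w + Complex.I * w ∈ Set.range c ∧ z + Complex.I * w ∈ Set.range c

/-- For the chord from `A = c x` to `B = c y` let `D = A + i(B - A)` and `E = B + i(B - A)` be the
other two vertices of the square on its left. The pair of the signed distances of `D` and `E` to the
curve is a positive multiple of `(cos α, sin α)`. -/
def Dir (c : ℝ → ℂ) (α x y : ℝ) : Prop :=
  ∃ t : ℝ, 0 < t ∧ sdist c (c x + Complex.I * (c y - c x)) = t * Real.cos α ∧
    sdist c (c y + Complex.I * (c y - c x)) = t * Real.sin α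

/-- `S` meets every family of chords `(x s, y s)`, `s ∈ [0, 1]`, that starts with a point of the
curve (`y 0 = x 0`) and ends with the whole curve (`y 1 = x 1 + 1`). -/
def Separates (S : Set (ℝ × ℝ)) : Prop :=
  ∀ x y : ℝ → ℝ, ContinuousOn x (Set.Icc 0 1) → ContinuousOn y (Set.Icc 0 1) →
    (∀ s ∈ Set.Icc (0 : ℝ) 1, x s ≤ y s ∧ y s ≤ x s + 1) → y 0 = x 0 → y 1 = x 1 + 1 →
    ∃ s ∈ Set.Icc (0 : ℝ) 1, (x s, y s) ∈ S

/-- Let `C` be a Jordan curve (parametrised by `c` of period `1`) without inscribed squares, and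
let `α` be any direction.

1. Every closed set `S` of chords (invariant under `(x, y) ↦ (x + 1, y + 1)`, containing no
   degenerate chord) that separates the short chords from the long ones contains a chord with the
   direction `α`.
2. Let `O` be a point inside `C`, and let `ρ` be a continuous function of two points with
   `ρ (A, A) > 0` and `ρ (A, B) ≤ |A - B|` for all chords `[A, B]` of `C` through `O` (for instance
   a constant at most the length of all chords of `C` through `O`). Then there is a chord with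
   direction `α` and with `|A - B| = ρ (A, B)`.
3. For `O` inside `C` and any number `r > 0` that is at most the length of all chords of `C` through
   `O`, there is a point `A` of `C` such that the points of `C` at distance exactly `r` from `A` do
   not lie in an open double sector `{|Im (ν (z - A))| < |Re (ν (z - A))|}` with opening `90°`. -/
theorem result (c : ℝ → ℂ) (hc : Continuous c) (hper : ∀ t, c (t + 1) = c t)
    (hinj : Set.InjOn c (Set.Ico 0 1)) (hno : ¬ HasSquare c) (α : ℝ) :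
    (∀ S : Set (ℝ × ℝ), IsClosed S → (∀ x y, (x + 1, y + 1) ∈ S ↔ (x, y) ∈ S) →
      (∀ x, (x, x) ∉ S ∧ (x, x + 1) ∉ S) → Separates S →
      ∃ x y, x < y ∧ y < x + 1 ∧ (x, y) ∈ S ∧ Dir c α x y) ∧
    (∀ O : ℂ, 0 < sdist c O → ∀ ρ : ℂ × ℂ → ℝ, Continuous ρ → (∀ z, 0 < ρ (z, z)) →
      (∀ x y, O ∈ segment ℝ (c x) (c y) → ρ (c x, c y) ≤ ‖c y - c x‖) →
      ∃ x y, x < y ∧ y < x + 1 ∧ ‖c y - c x‖ = ρ (c x, c y) ∧ Dir c α x y) ∧
    (∀ O : ℂ, 0 < sdist c O → ∀ r : ℝ, 0 < r →
      (∀ x y, O ∈ segment ℝ (c x) (c y) → r ≤ ‖c y - c x‖) →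
      ∃ x, ∀ ν : ℂ, ∃ t, ‖c t - c x‖ = r ∧
        |(ν * (c t - c x)).re| ≤ |(ν * (c t - c x)).im|) := by
  have L : H763R2.An.Loop c := ⟨hc, hper⟩
  have J : H763R2.An.Inj c := H765R3.Peg.inj_of L hinj
  have hdir : ∀ α' x y t, 0 < t →
      H763R2.An.mgc c (H763R2.An.DD c x y) = t * Real.cos α' →
      H763R2.An.mgc c (H763R2.An.CC c x y) = t * Real.sin α' → Dir c α' x y := by
    intro α' x y t ht e1 e2
    have d1 : c x + Complex.I * (c y - c x) = H763R2.An.DD c x y := by
      unfold H763R2.An.DD H763R2.Sq.Dv; ring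
    have d2 : c y + Complex.I * (c y - c x) = H763R2.An.CC c x y := by
      unfold H763R2.An.CC H763R2.Sq.Cv; ring
    refine ⟨t, ht, ?_, ?_⟩
    · rw [d1]; exact e1
    · rw [d2]; exact e2
  have hin : ∀ O : ℂ, 0 < sdist c O → ∃ n : ℤ, n ≠ 0 ∧ ∃ k : ℝ → ℂ, Continuous k ∧
      (∀ t, Complex.exp (k t) = c t - O) ∧ k 1 - k 0 = n * (2 * Real.pi * Complex.I) := by
    intro O hO
    unfold sdist at hO
    split_ifs at hO with h
    · obtain ⟨n, hk, hn⟩ := h
      refine ⟨n, ?_, hk⟩
      rintro rfl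
      exact absurd hn (by decide)
    · have := Metric.infDist_nonneg (x := O) (s := Set.range c)
      linarith
  have P1 : ∀ α' : ℝ, ∀ S : Set (ℝ × ℝ), IsClosed S → (∀ x y, (x + 1, y + 1) ∈ S ↔ (x, y) ∈ S) →
      (∀ x, (x, x) ∉ S ∧ (x, x + 1) ∉ S) → Separates S →
      ∃ x y, x < y ∧ y < x + 1 ∧ (x, y) ∈ S ∧ Dir c α' x y := by
    intro α' S hS hSp hS0 hsep
    obtain ⟨x, y, t, hx, hy, hm, ht, e1, e2⟩ := TH829.Peg.crossing_sep L J hno hS hSp
      (fun x => (hS0 x).1) (fun x => (hS0 x).2) hsep α'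
    exact ⟨x, y, hx, hy, hm, hdir α' x y t ht e1 e2⟩
  have P2 : ∀ α' : ℝ, ∀ O : ℂ, 0 < sdist c O → ∀ ρ : ℂ × ℂ → ℝ, Continuous ρ →
      (∀ z, 0 < ρ (z, z)) →
      (∀ x y, O ∈ segment ℝ (c x) (c y) → ρ (c x, c y) ≤ ‖c y - c x‖) →
      ∃ x y, x < y ∧ y < x + 1 ∧ ‖c y - c x‖ = ρ (c x, c y) ∧ Dir c α' x y := by
    intro α' O hO ρ hρ hpos hle
    obtain ⟨n, hn, k, hk, he, hkn⟩ := hin O hO
    have cF : Continuous fun p : ℝ × ℝ => ‖c p.2 - c p.1‖ - ρ (c p.1, c p.2) := by fun_prop
    refine P1 α' {p | ‖c p.2 - c p.1‖ = ρ (c p.1, c p.2)}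
      (isClosed_eq (by fun_prop) (by fun_prop)) ?_ ?_ ?_
    · intro x y
      show ‖c (y + 1) - c (x + 1)‖ = ρ (c (x + 1), c (y + 1)) ↔ ‖c y - c x‖ = ρ (c x, c y)
      rw [hper, hper]
    · intro x
      constructor
      · intro h
        change ‖c x - c x‖ = ρ (c x, c x) at h
        rw [sub_self, norm_zero] at h
        exact absurd (hpos (c x)) (by rw [← h]; exact lt_irrefl _)
      · intro h
        change ‖c (x + 1) - c x‖ = ρ (c x, c (x + 1)) at h
        rw [hper, sub_self, norm_zero] at h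
        exact absurd (hpos (c x)) (by rw [← h]; exact lt_irrefl _)
    · intro x y hx hy hxy e0 e1
      obtain ⟨s, hs, hseg⟩ := TH829.Peg.passes L hn hk he hkn hx hy e0 e1
      have h1 := hle _ _ hseg
      have cφ : ContinuousOn (fun s => ‖c (y s) - c (x s)‖ - ρ (c (x s), c (y s)))
          (Set.Icc 0 s) := by
        have := cF.comp_continuousOn (hx.prodMk hy)
        exact this.mono (Set.Icc_subset_Icc_right hs.2)
      have h0 : ‖c (y 0) - c (x 0)‖ - ρ (c (x 0), c (y 0)) < 0 := by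
        rw [e0, sub_self, norm_zero]
        have := hpos (c (x 0))
        linarith
      obtain ⟨s', hs', e'⟩ := intermediate_value_Icc hs.1 cφ
        (show (0:ℝ) ∈ Set.Icc _ _ from ⟨h0.le, by linarith⟩)
      exact ⟨s', ⟨hs'.1, hs'.2.trans hs.2⟩, sub_eq_zero.1 e'⟩
  refine ⟨P1 α, P2 α, ?_⟩
  intro O hO r hr hle
  obtain ⟨x, y, hx, hy, hlen, t, ht, e1, -⟩ := P2 (Real.pi / 2) O hO (fun _ => r)
    continuous_const (fun _ => hr) hle
  rw [Real.cos_pi_div_two, mul_zero] at e1
  have hD : c x + Complex.I * (c y - c x) ∈ Set.range c := by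
    have := (H763R2.An.mgc_sg L).zero L (z := c x + Complex.I * (c y - c x))
    exact this.1 e1
  obtain ⟨u, hu⟩ := hD
  refine ⟨x, fun ν => ?_⟩
  by_cases hcase : |(ν * (c y - c x)).re| ≤ |(ν * (c y - c x)).im|
  · exact ⟨y, hlen, hcase⟩
  · refine ⟨u, ?_, ?_⟩
    · rw [hu, add_sub_cancel_left, norm_mul, Complex.norm_I, one_mul, hlen]
    · rw [hu, add_sub_cancel_left]
      have e : ν * (Complex.I * (c y - c x)) = Complex.I * (ν * (c y - c x)) := by ring
      rw [e, Complex.I_mul_re, Complex.I_mul_im, abs_neg]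
      exact (not_le.1 hcase).le

end Pool.Agent.Results.MP_5a3ebe_gt.SingleScale
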