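import Pool.Agent.TH569.Peg.C

/-! Inscribed squares and translates: a Jordan curve without inscribed square is touched from
outside by one of its translates in two different points, with contact pairs of different classes. -/

namespace Pool.Agent.Results.MP_5a3ebe_gt.TouchingTranslates

/-- `z` lies inside `C`: it is not on `C`, and its component of the complement of `C` is bounded. -/
def Inside (C : Set ℂ) (z : ℂ) : Prop :=
  z ∉ C ∧ Bornology.IsBounded (connectedComponentIn Cᶜ z)

/-- `P, Q` is a bad pair: one of the two squares with the side `P Q` has both its other vertices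
inside `C`, at the same distance from `C`. -/
def Bad (C : Set ℂ) (P Q : ℂ) : Prop :=
  ∃ ε : ℂ, (ε = Complex.I ∨ ε = -Complex.I) ∧ Inside C (P + ε * (Q - P)) ∧
    Inside C (Q + ε * (Q - P)) ∧
    Metric.infDist (P + ε * (Q - P)) C = Metric.infDist (Q + ε * (Q - P)) C

/-- Let `C` be a Jordan curve parametrised by `c : ℝ → ℂ` of period `1` that does not contain the
four vertices of a square. Then there is a set `S` of ordered pairs such that

* for any two different points `P, Q` of `C` exactly one of `(P, Q)`, `(Q, P)` is in `S`;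
* each connected set of ordered pairs of different points of `C`, none of which is bad, is
  contained in `S` or disjoint from `S`;
* some translate `C + v` touches `C` from outside in at least two points, with contact pairs of
  different classes: there are points `A, B, A', B'` of `C` with `A - B = A' - B' = v`,
  `A ≠ A'`, `v ≠ 0`, `(A, B) ∈ S`, `(A', B') ∉ S`; the vector `v` is a limit of vectors of an open,
  connected, unbounded set `W` of vectors `w` for which `C + w` is disjoint from `C`, and the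
  insides of `C` and `C + v` are disjoint.

So `C` has an inscribed square if each translate that touches `C` from outside does so in only one
point, and also if `C` can be rolled around itself by translations, that is if the set of the pairs
`(P, Q)` of points of `C` for which `C + (P - Q)` does not overlap `C` (these pairs are never bad)
has a connected subset that contains a pair `(P, Q)` together with `(Q, P)`. -/
theorem result (c : ℝ → ℂ) (hc : Continuous c) (hper : ∀ t, c (t + 1) = c t)
    (hinj : Set.InjOn c (Set.Ico 0 1))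
    (hno : ¬ ∃ z w : ℂ, w ≠ 0 ∧ z ∈ Set.range c ∧ z + w ∈ Set.range c ∧
      z + w + Complex.I * w ∈ Set.range c ∧ z + Complex.I * w ∈ Set.range c) :
    ∃ (S : Set (ℂ × ℂ)) (W : Set ℂ) (A B A' B' : ℂ),
      (∀ P ∈ Set.range c, ∀ Q ∈ Set.range c, P ≠ Q → ((Q, P) ∈ S ↔ (P, Q) ∉ S)) ∧
      (∀ K : Set (ℂ × ℂ), IsPreconnected K →
        (∀ r ∈ K, r.1 ∈ Set.range c ∧ r.2 ∈ Set.range c ∧ r.1 ≠ r.2 ∧
          ¬ Bad (Set.range c) r.1 r.2) → K ⊆ S ∨ Disjoint K S) ∧
      IsOpen W ∧ IsPreconnected W ∧ ¬ Bornology.IsBounded W ∧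
      (∀ w ∈ W, ∀ z ∈ Set.range c, z + w ∉ Set.range c) ∧
      A ∈ Set.range c ∧ B ∈ Set.range c ∧ A' ∈ Set.range c ∧ B' ∈ Set.range c ∧
      A ≠ B ∧ A ≠ A' ∧ A - B = A' - B' ∧ (A, B) ∈ S ∧ (A', B') ∉ S ∧ A - B ∈ closure W ∧
      ∀ z, Inside (Set.range c) z → ¬ Inside (Set.range c) (z + (A - B)) := by
  have L : H763R2.An.Loop c := ⟨hc, hper⟩
  have J := H765R3.Peg.inj_of L hinj
  obtain ⟨S, W, ⟨A, B⟩, ⟨A', B'⟩, h1, h2, hWo, hWc, hWb, hWD, hp, hq, hne, hne', he, hpS, hqS,
    hcl⟩ := TH569.Peg.touching L J hno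
  refine ⟨S, W, A, B, A', B', h1, ?_, hWo, hWc, hWb, ?_, hp.1, hp.2, hq.1, hq.2, hne, hne', he,
    hpS, hqS, hcl, fun z hz hzv => TH569.Peg.no_overlap L hWc hWb hWD hcl hz hzv⟩
  · intro K hK hKr
    by_contra hcon
    rw [not_or, Set.not_subset, Set.not_disjoint_iff] at hcon
    obtain ⟨⟨b, hb, hbS⟩, a, ha, haS⟩ := hcon
    obtain ⟨r, hr, ε, hε, hr1, hr2⟩ := h2 K hK (fun r hr => ⟨(hKr r hr).1, (hKr r hr).2.1,
      (hKr r hr).2.2.1⟩) a ha haS b hb hbS
    refine (hKr r hr).2.2.2 ⟨ε, hε, TH569.Peg.ins_of_pos L hr1,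
      TH569.Peg.ins_of_pos L (by rw [← hr2]; exact hr1), ?_⟩
    rw [← H763R2.An.mgc_abs, ← H763R2.An.mgc_abs, hr2]
  · rintro w hw _ ⟨s, rfl⟩ ⟨t, ht⟩
    exact hWD w hw ⟨(t, s), by simp only; rw [ht]; ring⟩

end Pool.Agent.Results.MP_5a3ebe_gt.TouchingTranslates
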